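import Pool.Agent.Helper78.BAP.Lift

/-! Part EXT of the negative answer to MP_6f6997_an for `2 < p < ∞`: the space `XX D` has the
extension property for operators from subspaces of `ℓ_q^n`. -/

open scoped ENNReal NNReal
open Filter Topology

set_option maxSynthPendingDepth 3

namespace Pool.Agent.Helper78.BAP

open Pool.Agent.BAPp (sgn)
open Pool.Agent.Helper37.BP

/-- Hahn-Banach in `ℓ_q^n`, with the representing vector in the unit ball of `ℓ_p^n`. -/
theorem hb {p q : ℝ} (hpq : p.HolderConjugate q) {n : ℕ} (S : Submodule ℝ (Fin n → ℝ))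
    (φ : S →ₗ[ℝ] ℝ) (hφ : ∀ s : S, φ s ≤ (∑ j, |(s : Fin n → ℝ) j| ^ q) ^ (1 / q)) :
    ∃ g : Fin n → ℝ, (∀ s : S, ∑ j, (s : Fin n → ℝ) j * g j = φ s) ∧ ∑ j, |g j| ^ p ≤ 1 := by
  classical
  have hp0 : 0 < p := hpq.pos
  have hq0 : 0 < q := hpq.symm.pos
  have hq1 : 1 ≤ q := hpq.symm.lt.le
  obtain ⟨g, hg1, hg2⟩ := exists_extension_of_le_sublinear (⟨S, φ⟩ : (Fin n → ℝ) →ₗ.[ℝ] ℝ)
    (fun x => (∑ j, |x j| ^ q) ^ (1 / q))
    (by
      intro c hc x
      have : ∀ j, |(c • x) j| ^ q = c ^ q * |x j| ^ q := by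
        intro j
        rw [Pi.smul_apply, smul_eq_mul, abs_mul, abs_of_pos hc, Real.mul_rpow hc.le (abs_nonneg _)]
      simp_rw [this]
      rw [← Finset.mul_sum, Real.mul_rpow (by positivity)
        (Finset.sum_nonneg fun _ _ => by positivity), ← Real.rpow_mul hc.le,
        mul_one_div_cancel hq0.ne', Real.rpow_one])
    (by
      intro x y
      exact Real.Lp_add_le Finset.univ x y hq1)
    (by
      intro x
      exact hφ x)
  refine ⟨fun j => g (Pi.single j 1), ?_, ?_⟩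
  · intro s
    have h1 : g (s : Fin n → ℝ) = φ s := hg1 s
    rw [← h1]
    conv_rhs => rw [← Finset.univ_sum_single (s : Fin n → ℝ)]
    rw [map_sum]
    refine Finset.sum_congr rfl fun j _ => ?_
    have : (Pi.single j ((s : Fin n → ℝ) j) : Fin n → ℝ) =
        ((s : Fin n → ℝ) j) • (Pi.single j (1 : ℝ) : Fin n → ℝ) := by
      rw [← Pi.single_smul]; simp
    rw [this, map_smul, smul_eq_mul]
  · set G : Fin n → ℝ := fun j => g (Pi.single j 1) with hG
    set x : Fin n → ℝ := fun j => SignType.sign (G j) * |G j| ^ (p - 1) with hx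
    have h1 : g x = ∑ j, |G j| ^ p := by
      conv_lhs => rw [← Finset.univ_sum_single x]
      rw [map_sum]
      refine Finset.sum_congr rfl fun j _ => ?_
      have : (Pi.single j (x j) : Fin n → ℝ) = (x j) • (Pi.single j (1 : ℝ) : Fin n → ℝ) := by
        rw [← Pi.single_smul]; simp
      rw [this, map_smul, smul_eq_mul]
      show x j * G j = _
      rw [hx]
      have h2 : (SignType.sign (G j) : ℝ) * G j = |G j| := sign_mul_self _
      rcases eq_or_ne (G j) 0 with h | h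
      · simp [h, Real.zero_rpow hp0.ne']
      · have h3 : |G j| ^ p = |G j| ^ (p - 1) * |G j| := by
          rw [← Real.rpow_add_one (abs_pos.2 h).ne']; congr 1; ring
        rw [h3]
        calc (SignType.sign (G j) : ℝ) * |G j| ^ (p - 1) * G j =
            |G j| ^ (p - 1) * ((SignType.sign (G j) : ℝ) * G j) := by ring
          _ = _ := by rw [h2]
    have h3 : ∀ j, |x j| ^ q ≤ |G j| ^ p := by
      intro j
      rcases eq_or_ne (G j) 0 with h | h
      · rw [hx]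
        simp [h, Real.zero_rpow hp0.ne', Real.zero_rpow hq0.ne']
      · rw [hx]
        have h5 : |(SignType.sign (G j) : ℝ)| = 1 := by
          rcases lt_or_gt_of_ne h with h' | h'
          · simp [sign_neg h']
          · simp [sign_pos h']
        simp only [abs_mul, h5, one_mul]
        rw [abs_of_nonneg (Real.rpow_nonneg (abs_nonneg _) _), ← Real.rpow_mul (abs_nonneg _)]
        have : (p - 1) * q = p := by
          have := hpq.sub_one_mul_conj
          linarith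
        rw [this]
    set s := ∑ j, |G j| ^ p with hs
    have hs0 : 0 ≤ s := Finset.sum_nonneg fun _ _ => by positivity
    have h4 : s ≤ s ^ (1 / q) := by
      calc s = g x := h1.symm
        _ ≤ (∑ j, |x j| ^ q) ^ (1 / q) := hg2 x
        _ ≤ s ^ (1 / q) := Real.rpow_le_rpow (Finset.sum_nonneg fun _ _ => by positivity)
            (Finset.sum_le_sum fun j _ => h3 j) (by positivity)
    by_contra hcon
    push Not at hcon
    have h6 : s ^ (1 / q) < s ^ (1 : ℝ) :=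
      Real.rpow_lt_rpow_of_exponent_lt hcon (by
        rw [div_lt_one hq0]; exact hpq.symm.lt)
    rw [Real.rpow_one] at h6
    linarith

/-- Bessel's inequality for a finite weighted orthonormal system. -/
theorem bessel {κ ι : Type*} [Fintype ι] [DecidableEq ι] (K : Finset κ) (ρ : κ → ℝ)
    (hρ : ∀ k ∈ K, 0 ≤ ρ k) (v : ι → κ → ℝ)
    (hv : ∀ i j, ∑ k ∈ K, ρ k * (v i k * v j k) = if i = j then 1 else 0) (f : κ → ℝ) :
    ∑ i, (∑ k ∈ K, ρ k * (v i k * f k)) ^ 2 ≤ ∑ k ∈ K, ρ k * f k ^ 2 := by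
  set c : ι → ℝ := fun i => ∑ k ∈ K, ρ k * (v i k * f k) with hc
  have h0 : 0 ≤ ∑ k ∈ K, ρ k * (f k - ∑ i, c i * v i k) ^ 2 :=
    Finset.sum_nonneg fun k hk => mul_nonneg (hρ k hk) (sq_nonneg _)
  have h1 : ∑ k ∈ K, ρ k * (f k - ∑ i, c i * v i k) ^ 2 =
      ∑ k ∈ K, ρ k * f k ^ 2 - 2 * ∑ i, c i * c i +
        ∑ i, ∑ j, c i * c j * ∑ k ∈ K, ρ k * (v i k * v j k) := by
    have e1 : ∑ i, c i * c i = ∑ k ∈ K, ρ k * (f k * ∑ i, c i * v i k) := by
      have : ∀ i, c i * c i = ∑ k ∈ K, c i * (ρ k * (v i k * f k)) := fun i => by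
        conv_lhs => rw [show c i * c i = c i * ∑ k ∈ K, ρ k * (v i k * f k) from rfl]
        rw [Finset.mul_sum]
      simp_rw [this]
      rw [Finset.sum_comm]
      refine Finset.sum_congr rfl fun k _ => ?_
      rw [Finset.mul_sum, Finset.mul_sum]
      exact Finset.sum_congr rfl fun i _ => by ring
    have e2 : ∑ i, ∑ j, c i * c j * ∑ k ∈ K, ρ k * (v i k * v j k) =
        ∑ k ∈ K, ρ k * (∑ i, c i * v i k) ^ 2 := by
      simp_rw [Finset.mul_sum]
      have : ∀ i, ∑ j, ∑ k ∈ K, c i * c j * (ρ k * (v i k * v j k)) =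
          ∑ k ∈ K, ∑ j, c i * c j * (ρ k * (v i k * v j k)) := fun i => Finset.sum_comm
      simp_rw [this]
      rw [Finset.sum_comm]
      refine Finset.sum_congr rfl fun k _ => ?_
      rw [sq, Finset.sum_mul_sum, Finset.mul_sum]
      refine Finset.sum_congr rfl fun i _ => ?_
      rw [Finset.mul_sum]
      exact Finset.sum_congr rfl fun j _ => by ring
    rw [e1, e2, Finset.mul_sum, ← Finset.sum_sub_distrib, ← Finset.sum_add_distrib]
    exact Finset.sum_congr rfl fun k _ => by ring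
  have h2 : ∑ i, ∑ j, c i * c j * ∑ k ∈ K, ρ k * (v i k * v j k) = ∑ i, c i ^ 2 := by
    refine Finset.sum_congr rfl fun i _ => ?_
    simp_rw [hv i]
    simp [sq]
  rw [h1, h2] at h0
  have h3 : ∑ i, c i * c i = ∑ i, c i ^ 2 := Finset.sum_congr rfl fun i _ => (sq _).symm
  rw [h3] at h0
  linarith

/-- Jensen's inequality for subprobability weights. -/
theorem jensen {κ : Type*} (K : Finset κ) (ρ : κ → ℝ) (hρ : ∀ k, 0 ≤ ρ k)
    (hρ1 : ∑ k ∈ K, ρ k ≤ 1) (h : κ → ℝ) (hh : ∀ k, 0 ≤ h k) (r : ℝ) (hr : 1 ≤ r) :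
    (∑ k ∈ K, ρ k * h k) ^ r ≤ ∑ k ∈ K, ρ k * h k ^ r := by
  have hr0 : 0 < r := by linarith
  have h1 := Real.inner_le_weight_mul_Lp_of_nonneg K hr ρ h hρ hh
  have h2 : 0 ≤ ∑ k ∈ K, ρ k * h k ^ r :=
    Finset.sum_nonneg fun k _ => mul_nonneg (hρ k) (Real.rpow_nonneg (hh k) _)
  have h3 : 0 ≤ ∑ k ∈ K, ρ k * h k := Finset.sum_nonneg fun k _ => mul_nonneg (hρ k) (hh k)
  have h4 : (∑ k ∈ K, ρ k) ^ (1 - r⁻¹) ≤ 1 := by
    refine Real.rpow_le_one (Finset.sum_nonneg fun k _ => hρ k) hρ1 ?_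
    have : r⁻¹ ≤ 1 := inv_le_one_of_one_le₀ hr
    linarith
  have h5 : ∑ k ∈ K, ρ k * h k ≤ (∑ k ∈ K, ρ k * h k ^ r) ^ r⁻¹ :=
    h1.trans (mul_le_of_le_one_left (Real.rpow_nonneg h2 _) h4)
  calc (∑ k ∈ K, ρ k * h k) ^ r ≤ ((∑ k ∈ K, ρ k * h k ^ r) ^ r⁻¹) ^ r :=
        Real.rpow_le_rpow h3 h5 hr0.le
    _ = _ := by rw [← Real.rpow_mul h2, inv_mul_cancel₀ hr0.ne', Real.rpow_one]

/-- Bessel and Jensen for a family in the unit ball of `ℓ_p` at every point. -/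
theorem bj {κ ι : Type*} [Fintype ι] [DecidableEq ι] (K : Finset κ) (ρ : κ → ℝ)
    (hρ : ∀ k, 0 ≤ ρ k) (hρ1 : ∑ k ∈ K, ρ k ≤ 1) (v : ι → κ → ℝ)
    (hv : ∀ i j, ∑ k ∈ K, ρ k * (v i k * v j k) = if i = j then 1 else 0)
    {n : ℕ} (f : Fin n → κ → ℝ) (p : ℝ) (hp : 2 ≤ p) (hf : ∀ k, ∑ j, |f j k| ^ p ≤ 1) :
    ∑ j, (∑ i, (∑ k ∈ K, ρ k * (v i k * f j k)) ^ 2) ^ (p / 2) ≤ 1 := by
  have hp0 : 0 < p := by linarith
  calc ∑ j, (∑ i, (∑ k ∈ K, ρ k * (v i k * f j k)) ^ 2) ^ (p / 2)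
      ≤ ∑ j, (∑ k ∈ K, ρ k * f j k ^ 2) ^ (p / 2) := by
        refine Finset.sum_le_sum fun j _ => Real.rpow_le_rpow
          (Finset.sum_nonneg fun _ _ => sq_nonneg _)
          (bessel K ρ (fun k _ => hρ k) v hv (f j)) (by linarith)
    _ ≤ ∑ j, ∑ k ∈ K, ρ k * |f j k| ^ p := by
        refine Finset.sum_le_sum fun j _ => ?_
        refine (jensen K ρ hρ hρ1 (fun k => f j k ^ 2) (fun k => sq_nonneg _) (p / 2)
          (by linarith)).trans (le_of_eq ?_)
        refine Finset.sum_congr rfl fun k _ => ?_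
        congr 1
        show (f j k ^ 2) ^ (p / 2) = |f j k| ^ p
        rw [← sq_abs, ← Real.rpow_natCast, ← Real.rpow_mul (abs_nonneg _)]
        congr 1; push_cast; ring
    _ = ∑ k ∈ K, ρ k * ∑ j, |f j k| ^ p := by
        rw [Finset.sum_comm]
        exact Finset.sum_congr rfl fun k _ => by rw [Finset.mul_sum]
    _ ≤ ∑ k ∈ K, ρ k * 1 := Finset.sum_le_sum fun k _ => mul_le_mul_of_nonneg_left (hf k) (hρ k)
    _ ≤ 1 := by simpa using hρ1

theorem ip_eq_sum {Γ : Type} (ρ v f : Γ → ℝ) (K : Finset Γ)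
    (hK : ∀ γ, v γ ≠ 0 → γ ∈ K) : ip ρ v f = ∑ γ ∈ K, ρ γ * (v γ * f γ) := by
  unfold ip
  refine tsum_eq_sum fun γ hγ => ?_
  have : v γ = 0 := by
    by_contra h; exact hγ (hK γ h)
  rw [this]; ring

/-- the difference of two vectors, crude constant -/
theorem diff_bound {ι : Type*} [Fintype ι] {n : ℕ} (x y : Fin n → ι → ℝ) (p : ℝ) (hp : 2 ≤ p)
    (hx : ∑ j, (∑ i, x j i ^ 2) ^ (p / 2) ≤ 1) (hy : ∑ j, (∑ i, y j i ^ 2) ^ (p / 2) ≤ 1) :
    ∑ j, (∑ i, (x j i - y j i) ^ 2) ^ (p / 2) ≤ 4 ^ p := by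
  have key : ∀ j, (∑ i, (x j i - y j i) ^ 2) ^ (p / 2) ≤
      2 ^ p * ((∑ i, x j i ^ 2) ^ (p / 2) + (∑ i, y j i ^ 2) ^ (p / 2)) := by
    intro j
    set X := ∑ i, x j i ^ 2 with hX
    set Y := ∑ i, y j i ^ 2 with hY
    have hX0 : 0 ≤ X := Finset.sum_nonneg fun _ _ => sq_nonneg _
    have hY0 : 0 ≤ Y := Finset.sum_nonneg fun _ _ => sq_nonneg _
    have h1 : ∑ i, (x j i - y j i) ^ 2 ≤ 2 * X + 2 * Y := by
      rw [hX, hY, Finset.mul_sum, Finset.mul_sum, ← Finset.sum_add_distrib]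
      exact Finset.sum_le_sum fun i _ => by nlinarith [sq_nonneg (x j i + y j i)]
    have e4 : (4 : ℝ) ^ (p / 2) = 2 ^ p := by
      rw [show (4 : ℝ) = 2 ^ (2 : ℝ) by
        rw [show (2 : ℝ) = ((2 : ℕ) : ℝ) by norm_num, Real.rpow_natCast]; norm_num,
        ← Real.rpow_mul (by norm_num)]
      congr 1; ring
    have hXp : 0 ≤ X ^ (p / 2) := Real.rpow_nonneg hX0 _
    have hYp : 0 ≤ Y ^ (p / 2) := Real.rpow_nonneg hY0 _
    have h0 : 0 ≤ ∑ i, (x j i - y j i) ^ 2 := Finset.sum_nonneg fun _ _ => sq_nonneg _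
    rcases le_total X Y with h | h
    · calc (∑ i, (x j i - y j i) ^ 2) ^ (p / 2) ≤ (4 * Y) ^ (p / 2) :=
            Real.rpow_le_rpow h0 (by linarith) (by linarith)
        _ = 2 ^ p * Y ^ (p / 2) := by rw [Real.mul_rpow (by norm_num) hY0, e4]
        _ ≤ _ := mul_le_mul_of_nonneg_left (by linarith) (by positivity)
    · calc (∑ i, (x j i - y j i) ^ 2) ^ (p / 2) ≤ (4 * X) ^ (p / 2) :=
            Real.rpow_le_rpow h0 (by linarith) (by linarith)
        _ = 2 ^ p * X ^ (p / 2) := by rw [Real.mul_rpow (by norm_num) hX0, e4]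
        _ ≤ _ := mul_le_mul_of_nonneg_left (by linarith) (by positivity)
  have h2p : (2 : ℝ) ≤ 2 ^ p := by
    calc (2 : ℝ) = 2 ^ (1 : ℝ) := (Real.rpow_one 2).symm
      _ ≤ 2 ^ p := Real.rpow_le_rpow_of_exponent_le (by norm_num) (by linarith)
  have e44 : (4 : ℝ) ^ p = 2 ^ p * 2 ^ p := by
    rw [← Real.mul_rpow (by norm_num) (by norm_num)]; norm_num
  calc ∑ j, (∑ i, (x j i - y j i) ^ 2) ^ (p / 2)
      ≤ ∑ j, 2 ^ p * ((∑ i, x j i ^ 2) ^ (p / 2) + (∑ i, y j i ^ 2) ^ (p / 2)) :=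
        Finset.sum_le_sum fun j _ => key j
    _ = 2 ^ p * (∑ j, (∑ i, x j i ^ 2) ^ (p / 2) + ∑ j, (∑ i, y j i ^ 2) ^ (p / 2)) := by
        rw [← Finset.mul_sum, Finset.sum_add_distrib]
    _ ≤ 2 ^ p * (1 + 1) := by gcongr
    _ ≤ 4 ^ p := by rw [e44]; nlinarith [h2p]

theorem eval_sum {T : Type} {n : ℕ} (t : Fin n → ℝ) (b : Fin n → lp (fun _ : T => ℝ) ∞)
    (X : Submodule ℝ (lp (fun _ : T => ℝ) ∞)) (hb : ∀ j, b j ∈ X) (θ : T) :
    ((∑ j, t j • (⟨b j, hb j⟩ : X) : X) : lp (fun _ : T => ℝ) ∞) θ = ∑ j, t j * b j θ := by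
  have key : ∀ s : Finset (Fin n),
      ((∑ j ∈ s, t j • (⟨b j, hb j⟩ : X) : X) : lp (fun _ : T => ℝ) ∞) θ =
        ∑ j ∈ s, t j * b j θ := by
    intro s
    induction s using Finset.induction_on with
    | empty => simp
    | insert a s ha ih =>
      rw [Finset.sum_insert ha, Finset.sum_insert ha, ← ih]
      rfl
  exact key _

/-- Part EXT. -/
theorem ext (p q : ℝ) (hpq : p.HolderConjugate q) (hp : 2 ≤ p) :
    ∃ lam : ℝ, 1 ≤ lam ∧ ∀ (Γ I : Type) [DecidableEq I] (D : Sys Γ I), LqEP q lam (XX D) := by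
  obtain ⟨C, hC0, hC⟩ := lift p hp
  refine ⟨1 + C * 4, by linarith, ?_⟩
  intro Γ I _ D n S u hu
  have hp0 : 0 < p := by linarith
  have hq0 : 0 < q := hpq.symm.pos
  -- the pointwise extensions
  have hpt : ∀ θ : Γ ⊕ Om I, ∃ g : Fin n → ℝ,
      (∀ s : S, ∑ j, (s : Fin n → ℝ) j * g j = (u s : lp (fun _ : Γ ⊕ Om I => ℝ) ∞) θ) ∧
      ∑ j, |g j| ^ p ≤ 1 := by
    intro θ
    refine hb hpq S
      { toFun := fun s => (u s : lp (fun _ : Γ ⊕ Om I => ℝ) ∞) θ
        map_add' := by intro x y; simp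
        map_smul' := by intro c x; simp } ?_
    intro s
    calc (u s : lp (fun _ : Γ ⊕ Om I => ℝ) ∞) θ
        ≤ ‖(u s : lp (fun _ : Γ ⊕ Om I => ℝ) ∞) θ‖ := le_abs_self _
      _ ≤ ‖(u s : lp (fun _ : Γ ⊕ Om I => ℝ) ∞)‖ := lp.norm_apply_le_norm (by simp) _ _
      _ ≤ _ := hu s
  choose g hg1 hg2 using hpt
  -- the defects
  let δ : ∀ F : Finset I, Fin n → F → ℝ := fun F j i =>
    ip D.ρ (D.vh i) (fun γ => g (Sum.inl γ) j) - av (fun ω : F → Bool => g (Sum.inr ⟨F, ω⟩) j) i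
  have hδ : ∀ F : Finset I, ∑ j, (∑ i, δ F j i ^ 2) ^ (p / 2) ≤ 4 ^ p := by
    intro F
    refine diff_bound _ _ p hp ?_ ?_
    · classical
      set K : Finset Γ := F.biUnion fun i => (D.fin_supp i).toFinset with hK
      have hKm : ∀ i ∈ F, ∀ γ, D.vh i γ ≠ 0 → γ ∈ K := by
        intro i hi γ h
        rw [hK, Finset.mem_biUnion]
        exact ⟨i, hi, by simpa using h⟩
      have e : ∀ j (i : F), ip D.ρ (D.vh i) (fun γ => g (Sum.inl γ) j) =
          ∑ γ ∈ K, D.ρ γ * (D.vh i γ * g (Sum.inl γ) j) := fun j i =>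
        ip_eq_sum _ _ _ K (hKm i i.2)
      simp_rw [e]
      refine bj K D.ρ (fun γ => (D.pos γ).le) ?_ (fun i : F => D.vh i) ?_
        (fun j γ => g (Sum.inl γ) j) p hp fun γ => hg2 _
      · exact (D.summable.sum_le_tsum K fun γ _ => (D.pos γ).le).trans D.le_one
      · intro i j
        rw [← ip_eq_sum D.ρ (D.vh i) (D.vh j) K (hKm i i.2)]
        split_ifs with h
        · subst h; exact D.unit _
        · exact D.ortho _ _ fun h' => h (Subtype.ext h')
    · have e : ∀ j (i : F), av (fun ω : F → Bool => g (Sum.inr ⟨F, ω⟩) j) i =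
          ∑ ω : F → Bool, (1 / 2 ^ Fintype.card F) * (sgn (ω i) * g (Sum.inr ⟨F, ω⟩) j) := by
        intro j i
        unfold av
        rw [← Finset.mul_sum]; ring
      simp_rw [e]
      refine bj Finset.univ (fun _ : F → Bool => (1 : ℝ) / 2 ^ Fintype.card F)
        (fun ω => by positivity) ?_ (fun (i : F) (ω : F → Bool) => sgn (ω i)) ?_
        (fun j ω => g (Sum.inr ⟨F, ω⟩) j) p hp fun ω => hg2 _
      · simp
      · intro i j
        rw [← Finset.mul_sum, sum_sgn_mul]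
        split_ifs <;> simp
  have hrel : ∀ (F : Finset I) (s : S) (i : F), ∑ j, (s : Fin n → ℝ) j * δ F j i = 0 := by
    intro F s i
    have h1 : ∑ j, (s : Fin n → ℝ) j * ip D.ρ (D.vh i) (fun γ => g (Sum.inl γ) j) =
        ip D.ρ (D.vh i) (fun γ => (u s : lp (fun _ : Γ ⊕ Om I => ℝ) ∞) (Sum.inl γ)) := by
      classical
      have e : ∀ f : Γ → ℝ, ip D.ρ (D.vh i) f =
          ∑ γ ∈ (D.fin_supp i).toFinset, D.ρ γ * (D.vh i γ * f γ) := fun f =>
        ip_eq_sum _ _ _ _ (by intro γ h; simpa using h)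
      simp_rw [e, Finset.mul_sum]
      rw [Finset.sum_comm]
      refine Finset.sum_congr rfl fun γ _ => ?_
      rw [← hg1 (Sum.inl γ) s, Finset.mul_sum, Finset.mul_sum]
      exact Finset.sum_congr rfl fun j _ => by ring
    have h2 : ∑ j, (s : Fin n → ℝ) j * av (fun ω : F → Bool => g (Sum.inr ⟨F, ω⟩) j) i =
        av (fun ω : F → Bool => (u s : lp (fun _ : Γ ⊕ Om I => ℝ) ∞) (Sum.inr ⟨F, ω⟩)) i := by
      rw [← av_lin]
      congr 1
      funext ω
      exact hg1 (Sum.inr ⟨F, ω⟩) s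
    have h3 : ∀ j, (s : Fin n → ℝ) j * δ F j i =
        (s : Fin n → ℝ) j * ip D.ρ (D.vh i) (fun γ => g (Sum.inl γ) j) -
        (s : Fin n → ℝ) j * av (fun ω : F → Bool => g (Sum.inr ⟨F, ω⟩) j) i := by
      intro j; simp only [δ]; ring
    simp_rw [h3]
    rw [Finset.sum_sub_distrib, h1, h2]
    have h4 := (u s).2 F i
    exact sub_eq_zero.2 h4
  have hlift := fun F : Finset I => hC F n (δ F) 4 (by norm_num) (hδ F)
  choose a ha1 ha2 ha3 using hlift
  -- the extension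
  let cr : Fin n → (Γ ⊕ Om I) → ℝ := fun j =>
    Sum.elim (fun _ : Γ => (0 : ℝ)) (fun w : Om I => a w.1 j w.2)
  have cr_inl : ∀ j γ, cr j (Sum.inl γ) = 0 := fun j γ => rfl
  have cr_inr : ∀ j (w : Om I), cr j (Sum.inr w) = a w.1 j w.2 := fun j w => rfl
  let bf : Fin n → (Γ ⊕ Om I) → ℝ := fun j θ => g θ j + cr j θ
  have hcorr : ∀ θ, ∑ j, |cr j θ| ^ p ≤ (C * 4) ^ p := by
    intro θ
    rcases θ with γ | w
    · simp only [cr_inl, abs_zero]
      rw [Real.zero_rpow hp0.ne']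
      simp only [Finset.sum_const_zero]
      positivity
    · simp only [cr_inr]
      exact ha1 w.1 w.2
  have hnorm : ∀ (t : Fin n → ℝ) (θ : Γ ⊕ Om I), |∑ j, t j * bf j θ| ≤
      (1 + C * 4) * (∑ j, |t j| ^ q) ^ (1 / q) := by
    intro t θ
    have hold : ∀ (c : Fin n → ℝ) (W : ℝ), 0 ≤ W → ∑ j, |c j| ^ p ≤ W ^ p →
        |∑ j, t j * c j| ≤ W * (∑ j, |t j| ^ q) ^ (1 / q) := by
      intro c W hW hc
      have h0 : 0 ≤ (∑ j, |t j| ^ q) ^ (1 / q) :=
        Real.rpow_nonneg (Finset.sum_nonneg fun _ _ => by positivity) _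
      have h1 := Real.inner_le_Lp_mul_Lq Finset.univ (fun j => |c j|) (fun j => |t j|) hpq
      simp only [abs_abs] at h1
      calc |∑ j, t j * c j| ≤ ∑ j, |t j * c j| := Finset.abs_sum_le_sum_abs _ _
        _ = ∑ j, |c j| * |t j| := Finset.sum_congr rfl fun j _ => by rw [abs_mul, mul_comm]
        _ ≤ _ := h1
        _ ≤ (W ^ p) ^ (1 / p) * (∑ j, |t j| ^ q) ^ (1 / q) :=
            mul_le_mul_of_nonneg_right (Real.rpow_le_rpow
              (Finset.sum_nonneg fun _ _ => by positivity) hc (by positivity)) h0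
        _ = _ := by rw [← Real.rpow_mul hW, mul_one_div_cancel hp0.ne', Real.rpow_one]
    have h1 := hold (g θ) 1 (by norm_num) (by simpa using hg2 θ)
    have h2 := hold (fun j => cr j θ) (C * 4) (by positivity) (hcorr θ)
    have h3 : ∑ j, t j * bf j θ = ∑ j, t j * g θ j + ∑ j, t j * cr j θ := by
      rw [← Finset.sum_add_distrib]
      exact Finset.sum_congr rfl fun j _ => by simp only [bf]; ring
    rw [h3, add_mul]
    exact (abs_add_le _ _).trans (add_le_add h1 h2)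
  have hmem : ∀ j, Memℓp (bf j) ∞ := by
    intro j
    rw [memℓp_infty_iff]
    refine ⟨1 + C * 4, ?_⟩
    rintro _ ⟨θ, rfl⟩
    have h1 := hnorm (Pi.single j 1) θ
    have e1 : ∑ l, (Pi.single j (1 : ℝ) : Fin n → ℝ) l * bf l θ = bf j θ := by
      rw [Finset.sum_eq_single j]
      · simp
      · intro l _ hl; simp [hl]
      · simp
    have e2 : ∑ l, |(Pi.single j (1 : ℝ) : Fin n → ℝ) l| ^ q = 1 := by
      rw [Finset.sum_eq_single j]
      · simp
      · intro l _ hl; simp [hl, Real.zero_rpow hq0.ne']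
      · simp
    rw [e1, e2, Real.one_rpow, mul_one] at h1
    exact h1
  have hXX : ∀ j, (⟨bf j, hmem j⟩ : lp (fun _ : Γ ⊕ Om I => ℝ) ∞) ∈ XX D := by
    intro j F i
    show ip D.ρ (D.vh i) (fun γ => bf j (Sum.inl γ)) = av (fun ω : F → Bool => bf j (Sum.inr ⟨F, ω⟩)) i
    have h1 := ha2 F j i
    have e1 : (fun γ => bf j (Sum.inl γ)) = fun γ => g (Sum.inl γ) j := by
      funext γ; simp only [bf, cr_inl, add_zero]
    have e2 : (fun ω : F → Bool => bf j (Sum.inr ⟨F, ω⟩)) =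
        fun ω => g (Sum.inr ⟨F, ω⟩) j - (- a F j ω) := by
      funext ω; simp only [bf, cr_inr, sub_neg_eq_add]
    rw [e1, e2, av_sub]
    have e3 : av (fun ω => -a F j ω) i = - av (a F j) i := by
      unfold av
      rw [← neg_div, ← Finset.sum_neg_distrib]
      congr 1
      exact Finset.sum_congr rfl fun ω _ => by ring
    rw [e3, h1]
    simp only [δ]
    ring
  refine ⟨fun j => ⟨⟨bf j, hmem j⟩, hXX j⟩, ?_, ?_⟩
  · intro s
    apply Subtype.ext
    apply Subtype.ext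
    funext θ
    have e1 := eval_sum (s : Fin n → ℝ) (fun j => ⟨bf j, hmem j⟩) (XX D) hXX θ
    refine Eq.trans ?_ e1.symm
    show (u s : lp (fun _ : Γ ⊕ Om I => ℝ) ∞) θ = ∑ j, (s : Fin n → ℝ) j * bf j θ
    rw [← hg1 θ s]
    have e2 : ∑ j, (s : Fin n → ℝ) j * cr j θ = 0 := by
      rcases θ with γ | w
      · simp only [cr_inl, mul_zero, Finset.sum_const_zero]
      · simp only [cr_inr]
        exact ha3 w.1 s (hrel w.1 s) w.2
    calc ∑ j, (s : Fin n → ℝ) j * g θ j = ∑ j, (s : Fin n → ℝ) j * g θ j + 0 := (add_zero _).symm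
      _ = _ := by
        rw [← e2, ← Finset.sum_add_distrib]
        exact Finset.sum_congr rfl fun j _ => by simp only [bf]; ring
  · intro t
    have hT0 : 0 ≤ (1 + C * 4) * (∑ j, |t j| ^ q) ^ (1 / q) :=
      mul_nonneg (by positivity) (Real.rpow_nonneg (Finset.sum_nonneg fun _ _ => by positivity) _)
    refine lp.norm_le_of_forall_le hT0 fun θ => ?_
    have e1 := eval_sum t (fun j => ⟨bf j, hmem j⟩) (XX D) hXX θ
    rw [Real.norm_eq_abs]
    refine le_trans (le_of_eq (congrArg abs e1)) ?_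
    exact hnorm t θ

end Pool.Agent.Helper78.BAP
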