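import Pool.Agent.Helper37.BP.Defs
import Pool.Graph.R_seed8.BAPp.Khin

/-! Part LIFT of the negative answer to MP_6f6997_an for `2 < p < ∞`: lifting of vectors of
Rademacher coefficients to bounded functions on the sign cube. -/

open scoped ENNReal NNReal
open Filter Topology

namespace Pool.Agent.Helper78.BAP

open Pool.Agent.BAPp (sgn)
open Pool.Agent.Helper37.BP

theorem sgn_not (b : Bool) : sgn (!b) = - sgn b := by
  cases b <;> simp [sgn]

theorem sgn_mul_self' (b : Bool) : sgn b * sgn b = 1 := by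
  cases b <;> simp [sgn]

/-- orthogonality of the coordinate signs -/
theorem sum_sgn_mul {ι : Type} [Fintype ι] [DecidableEq ι] (i i' : ι) :
    ∑ ω : ι → Bool, sgn (ω i) * sgn (ω i') = if i = i' then 2 ^ Fintype.card ι else 0 := by
  split_ifs with h
  · subst h
    simp [sgn_mul_self', Fintype.card_bool]
  · have inv : Function.Involutive (fun ω : ι → Bool => Function.update ω i (!ω i)) := by
      intro ω
      funext l
      by_cases hl : l = i
      · subst hl; simp
      · simp [Function.update_of_ne hl]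
    have key : ∑ ω : ι → Bool, sgn (ω i) * sgn (ω i') =
        ∑ ω : ι → Bool, -(sgn (ω i) * sgn (ω i')) := by
      refine Fintype.sum_equiv inv.toPerm _ _ ?_
      intro ω
      have h1 : (inv.toPerm _ ω) i' = ω i' := by
        show Function.update ω i (!ω i) i' = ω i'
        exact Function.update_of_ne (Ne.symm h) _ _
      have h2 : (inv.toPerm _ ω) i = !ω i := by
        show Function.update ω i (!ω i) i = !ω i
        exact Function.update_self _ _ _
      rw [h1, h2, sgn_not]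
      ring
    rw [Finset.sum_neg_distrib] at key
    linarith

/-- the Rademacher coefficients of a Rademacher sum -/
theorem av_rad {ι : Type} [Fintype ι] [DecidableEq ι] (d : ι → ℝ) (i : ι) :
    av (fun ω : ι → Bool => ∑ l, sgn (ω l) * d l) i = d i := by
  unfold av
  have h1 : ∑ ω : ι → Bool, sgn (ω i) * ∑ l, sgn (ω l) * d l =
      ∑ l, (∑ ω : ι → Bool, sgn (ω i) * sgn (ω l)) * d l := by
    simp_rw [Finset.mul_sum, Finset.sum_mul]
    rw [Finset.sum_comm]
    refine Finset.sum_congr rfl fun l _ => Finset.sum_congr rfl fun ω _ => by ring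
  rw [h1]
  simp_rw [sum_sgn_mul]
  simp

theorem av_sub {ι : Type} [Fintype ι] [DecidableEq ι] (a b : (ι → Bool) → ℝ) (i : ι) :
    av (fun ω => a ω - b ω) i = av a i - av b i := by
  unfold av
  rw [← sub_div, ← Finset.sum_sub_distrib]
  congr 1
  exact Finset.sum_congr rfl fun ω _ => by ring

theorem av_lin {ι : Type} [Fintype ι] [DecidableEq ι] {n : ℕ} (s : Fin n → ℝ)
    (a : Fin n → (ι → Bool) → ℝ) (i : ι) :
    av (fun ω => ∑ j, s j * a j ω) i = ∑ j, s j * av (a j) i := by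
  unfold av
  simp_rw [← mul_div_assoc]
  rw [← Finset.sum_div]
  congr 1
  simp_rw [Finset.mul_sum]
  rw [Finset.sum_comm]
  exact Finset.sum_congr rfl fun j _ => Finset.sum_congr rfl fun ω _ => by ring

/-- The remainder after truncation is small. -/
theorem remainder {ι : Type} [Fintype ι] [DecidableEq ι] (d : ι → ℝ) (A : Finset (ι → Bool))
    (hA : 4096 * (A.card : ℝ) ≤ 2 ^ Fintype.card ι) (r : ι → ℝ)
    (hr : ∀ i, r i = (∑ ω ∈ A, sgn (ω i) * ∑ l, sgn (ω l) * d l) / 2 ^ Fintype.card ι) :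
    ∑ i, r i ^ 2 ≤ (∑ i, d i ^ 2) / 4 := by
  set N : ℝ := 2 ^ Fintype.card ι with hN
  have hN0 : 0 < N := by positivity
  set L : (ι → Bool) → ℝ := fun ω => ∑ l, sgn (ω l) * d l with hL
  set R : (ι → Bool) → ℝ := fun ω => ∑ l, sgn (ω l) * r l with hR
  set x := ∑ i, r i ^ 2 with hx
  set y := ∑ i, d i ^ 2 with hy
  have hx0 : 0 ≤ x := Finset.sum_nonneg fun i _ => sq_nonneg _
  have hy0 : 0 ≤ y := Finset.sum_nonneg fun i _ => sq_nonneg _
  have h1 : N * x = ∑ ω ∈ A, L ω * R ω := by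
    have : x = ∑ i, r i * ((∑ ω ∈ A, sgn (ω i) * L ω) / N) := by
      rw [hx]; exact Finset.sum_congr rfl fun i _ => by rw [sq, ← hr i]
    rw [this, Finset.mul_sum]
    have e : ∀ i, N * (r i * ((∑ ω ∈ A, sgn (ω i) * L ω) / N)) =
        ∑ ω ∈ A, r i * (sgn (ω i) * L ω) := by
      intro i
      rw [← Finset.mul_sum]; field_simp
    simp_rw [e]
    rw [Finset.sum_comm]
    refine Finset.sum_congr rfl fun ω _ => ?_
    rw [hR]
    simp only [Finset.mul_sum]
    exact Finset.sum_congr rfl fun i _ => by ring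
  have h4 : ∀ c : ι → ℝ, ∑ ω : ι → Bool, (∑ l, sgn (ω l) * c l) ^ 4 ≤
      N * (1024 * (∑ i, c i ^ 2) ^ 2) := by
    intro c
    have h := Pool.Agent.BAPp.Khin.khinchine c 4 (by norm_num)
    have e1 : ∀ ω : ι → Bool, |∑ l, sgn (ω l) * c l| ^ (4 : ℝ) = (∑ l, sgn (ω l) * c l) ^ 4 := by
      intro ω
      have : |∑ l, sgn (ω l) * c l| ^ (4 : ℝ) = |∑ l, sgn (ω l) * c l| ^ 4 := by
        rw [show (4 : ℝ) = ((4 : ℕ) : ℝ) by norm_num, Real.rpow_natCast]
      rw [this, Even.pow_abs (by decide)]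
    simp_rw [e1] at h
    have e2 : (4 : ℝ) ^ (4 : ℝ) = 256 := by
      rw [show (4 : ℝ) ^ (4 : ℝ) = (4 : ℝ) ^ ((4 : ℕ) : ℝ) by norm_num, Real.rpow_natCast]; norm_num
    have e3 : (∑ i, c i ^ 2) ^ ((4 : ℝ) / 2) = (∑ i, c i ^ 2) ^ 2 := by
      rw [show ((4 : ℝ) / 2) = ((2 : ℕ) : ℝ) by norm_num, Real.rpow_natCast]
    rw [e2, e3] at h
    calc _ ≤ _ := h
      _ = _ := by rw [hN]; ring
  -- Cauchy-Schwarz
  have h5 : (∑ ω ∈ A, L ω * R ω) ^ 2 ≤ (A.card : ℝ) * ∑ ω ∈ A, (L ω * R ω) ^ 2 := by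
    have := sq_sum_le_card_mul_sum_sq (s := A) (f := fun ω => L ω * R ω)
    exact this
  have h6 : (∑ ω ∈ A, (L ω * R ω) ^ 2) ^ 2 ≤ (N * (1024 * y ^ 2)) * (N * (1024 * x ^ 2)) := by
    calc (∑ ω ∈ A, (L ω * R ω) ^ 2) ^ 2 = (∑ ω ∈ A, L ω ^ 2 * R ω ^ 2) ^ 2 := by
          simp_rw [mul_pow]
      _ ≤ (∑ ω ∈ A, (L ω ^ 2) ^ 2) * (∑ ω ∈ A, (R ω ^ 2) ^ 2) :=
          Finset.sum_mul_sq_le_sq_mul_sq _ _ _
      _ ≤ (∑ ω : ι → Bool, L ω ^ 4) * (∑ ω : ι → Bool, R ω ^ 4) := by
          have q1 : ∀ F : (ι → Bool) → ℝ, ∑ ω ∈ A, (F ω ^ 2) ^ 2 ≤ ∑ ω : ι → Bool, F ω ^ 4 := by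
            intro F
            calc ∑ ω ∈ A, (F ω ^ 2) ^ 2 ≤ ∑ ω : ι → Bool, (F ω ^ 2) ^ 2 :=
                  Finset.sum_le_sum_of_subset_of_nonneg (Finset.subset_univ _)
                    (fun _ _ _ => by positivity)
              _ = _ := Finset.sum_congr rfl fun ω _ => by ring
          exact mul_le_mul (q1 L) (q1 R) (Finset.sum_nonneg fun _ _ => by positivity)
            (Finset.sum_nonneg fun ω _ => by positivity)
      _ ≤ _ := mul_le_mul (h4 d) (h4 r) (Finset.sum_nonneg fun ω _ => by positivity)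
            (by positivity)
  have h7 : ∑ ω ∈ A, (L ω * R ω) ^ 2 ≤ N * 1024 * (x * y) := by
    refine abs_le_of_sq_le_sq' (a := ∑ ω ∈ A, (L ω * R ω) ^ 2) ?_ (by positivity) |>.2
    calc _ ≤ _ := h6
      _ = _ := by ring
  have h8 : (N * x) ^ 2 ≤ (N ^ 2 / 4) * (x * y) := by
    rw [h1]
    calc (∑ ω ∈ A, L ω * R ω) ^ 2 ≤ (A.card : ℝ) * ∑ ω ∈ A, (L ω * R ω) ^ 2 := h5
      _ ≤ (A.card : ℝ) * (N * 1024 * (x * y)) := mul_le_mul_of_nonneg_left h7 (by positivity)
      _ = (1024 * (A.card : ℝ)) * (N * (x * y)) := by ring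
      _ ≤ (N / 4) * (N * (x * y)) := by
          refine mul_le_mul_of_nonneg_right ?_ (by positivity)
          linarith
      _ = _ := by ring
  rcases hx0.eq_or_lt with h | h
  · rw [← h]; positivity
  · have h9 : N ^ 2 * x * x ≤ N ^ 2 * x * (y / 4) := by nlinarith
    exact le_of_mul_le_mul_left h9 (by positivity)

/-- One step of the lifting. -/
theorem step (p : ℝ) (hp : 2 ≤ p) {ι : Type} [Fintype ι] [DecidableEq ι]
    {n : ℕ} (δ : Fin n → ι → ℝ) (V : ℝ) (hV : 0 ≤ V)
    (h : ∑ j, (∑ i, δ j i ^ 2) ^ (p / 2) ≤ V ^ p) :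
    ∃ a : Fin n → (ι → Bool) → ℝ,
      (∀ ω, ∑ j, |a j ω| ^ p ≤ (128 * p * V) ^ p) ∧
      (∑ j, (∑ i, (δ j i - av (a j) i) ^ 2) ^ (p / 2) ≤ (V / 2) ^ p) ∧
      (∀ s : Fin n → ℝ, (∀ i, ∑ j, s j * δ j i = 0) → ∀ ω, ∑ j, s j * a j ω = 0) := by
  classical
  have hp0 : 0 < p := by linarith
  set L : Fin n → (ι → Bool) → ℝ := fun j ω => ∑ l, sgn (ω l) * δ j l with hL
  set A : Finset (ι → Bool) := Finset.univ.filter fun ω => ¬ (∑ j, |L j ω| ^ p ≤ (128 * p * V) ^ p)
    with hA
  refine ⟨fun j ω => if ω ∈ A then 0 else L j ω, ?_, ?_, ?_⟩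
  · intro ω
    by_cases hω : ω ∈ A
    · simp only [hω, if_true, abs_zero]
      rw [Real.zero_rpow hp0.ne']
      simp only [Finset.sum_const_zero]
      positivity
    · simp only [hω, if_false]
      simp only [hA, Finset.mem_filter, Finset.mem_univ, true_and, not_not] at hω
      exact hω
  · -- Markov
    have hK : ∑ ω : ι → Bool, ∑ j, |L j ω| ^ p ≤ 2 ^ Fintype.card ι * (4 * p ^ p * V ^ p) := by
      rw [Finset.sum_comm]
      calc ∑ j, ∑ ω : ι → Bool, |L j ω| ^ p
          ≤ ∑ j, 2 ^ Fintype.card ι * (4 * p ^ p * (∑ i, δ j i ^ 2) ^ (p / 2)) :=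
            Finset.sum_le_sum fun j _ =>
              Pool.Agent.BAPp.Khin.khinchine (δ j) p (by linarith)
        _ = 2 ^ Fintype.card ι * (4 * p ^ p * ∑ j, (∑ i, δ j i ^ 2) ^ (p / 2)) := by
            rw [Finset.mul_sum, Finset.mul_sum]
        _ ≤ _ := by gcongr
    have hM : (A.card : ℝ) * (128 * p * V) ^ p ≤ 2 ^ Fintype.card ι * (4 * p ^ p * V ^ p) := by
      calc (A.card : ℝ) * (128 * p * V) ^ p = ∑ ω ∈ A, (128 * p * V) ^ p := by
            rw [Finset.sum_const, nsmul_eq_mul]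
        _ ≤ ∑ ω ∈ A, ∑ j, |L j ω| ^ p := by
            refine Finset.sum_le_sum fun ω hω => ?_
            simp only [hA, Finset.mem_filter, Finset.mem_univ, true_and, not_le] at hω
            exact hω.le
        _ ≤ ∑ ω : ι → Bool, ∑ j, |L j ω| ^ p :=
            Finset.sum_le_sum_of_subset_of_nonneg (Finset.subset_univ _)
              (fun _ _ _ => Finset.sum_nonneg fun _ _ => by positivity)
        _ ≤ _ := hK
    have hcard : 4096 * (A.card : ℝ) ≤ 2 ^ Fintype.card ι := by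
      rcases hV.eq_or_lt with h0 | h0
      · have hA0 : A = ∅ := by
          rw [Finset.eq_empty_iff_forall_notMem]
          intro ω hω
          have h1 : ∑ j, |L j ω| ^ p ≤ 0 := by
            calc ∑ j, |L j ω| ^ p ≤ ∑ ω : ι → Bool, ∑ j, |L j ω| ^ p :=
                  Finset.single_le_sum (f := fun ω : ι → Bool => ∑ j, |L j ω| ^ p)
                    (fun _ _ => Finset.sum_nonneg fun _ _ => by positivity) (Finset.mem_univ ω)
              _ ≤ _ := hK
              _ = 0 := by rw [← h0, Real.zero_rpow hp0.ne']; ring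
          simp only [hA, Finset.mem_filter, Finset.mem_univ, true_and, not_le] at hω
          rw [← h0, mul_zero, Real.zero_rpow hp0.ne'] at hω
          linarith
        rw [hA0]; simp
      · have e1 : (128 * p * V) ^ p = 128 ^ p * (p ^ p * V ^ p) := by
          rw [Real.mul_rpow (by positivity) h0.le, Real.mul_rpow (by norm_num) hp0.le]; ring
        rw [e1] at hM
        have hpV : 0 < p ^ p * V ^ p := by positivity
        have h2 : (A.card : ℝ) * 128 ^ p ≤ 2 ^ Fintype.card ι * 4 := by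
          refine le_of_mul_le_mul_right ?_ hpV
          calc _ = (A.card : ℝ) * (128 ^ p * (p ^ p * V ^ p)) := by ring
            _ ≤ _ := hM
            _ = _ := by ring
        have h3 : (16384 : ℝ) ≤ 128 ^ p := by
          calc (16384 : ℝ) = 128 ^ (2 : ℝ) := by
                rw [show (2 : ℝ) = ((2 : ℕ) : ℝ) by norm_num, Real.rpow_natCast]; norm_num
            _ ≤ 128 ^ p := Real.rpow_le_rpow_of_exponent_le (by norm_num) hp
        have h4 : (A.card : ℝ) * 16384 ≤ 2 ^ Fintype.card ι * 4 :=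
          le_trans (mul_le_mul_of_nonneg_left h3 (by positivity)) h2
        linarith
    have hrem : ∀ j, ∑ i, (δ j i - av (fun ω => if ω ∈ A then 0 else L j ω) i) ^ 2 ≤
        (∑ i, δ j i ^ 2) / 4 := by
      intro j
      refine remainder (δ j) A hcard _ fun i => ?_
      have h1 : δ j i = av (L j) i := (av_rad (δ j) i).symm
      rw [h1, ← av_sub]
      unfold av
      congr 1
      rw [← Finset.sum_filter_add_sum_filter_not Finset.univ (· ∈ A)]
      have e2 : ∑ x ∈ Finset.univ.filter (fun x => x ∉ A), sgn (x i) *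
          (L j x - if x ∈ A then 0 else L j x) = 0 := by
        refine Finset.sum_eq_zero fun ω hω => ?_
        simp only [Finset.mem_filter, Finset.mem_univ, true_and] at hω
        simp [hω]
      rw [e2, add_zero]
      have e3 : Finset.univ.filter (fun x => x ∈ A) = A := by ext; simp
      rw [e3]
      refine Finset.sum_congr rfl fun ω hω => ?_
      simp [hω, hL]
    have e4 : (V / 2) ^ p = V ^ p * (1 / 4) ^ (p / 2) := by
      rw [div_eq_mul_one_div V 2, Real.mul_rpow hV (by norm_num)]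
      congr 1
      rw [show (1 / 4 : ℝ) = (1 / 2) ^ (2 : ℝ) by
        rw [show (2 : ℝ) = ((2 : ℕ) : ℝ) by norm_num, Real.rpow_natCast]; norm_num,
        ← Real.rpow_mul (by norm_num)]
      congr 1; ring
    rw [e4]
    calc ∑ j, (∑ i, (δ j i - av (fun ω => if ω ∈ A then 0 else L j ω) i) ^ 2) ^ (p / 2)
        ≤ ∑ j, ((∑ i, δ j i ^ 2) / 4) ^ (p / 2) := by
          refine Finset.sum_le_sum fun j _ => Real.rpow_le_rpow
            (Finset.sum_nonneg fun _ _ => sq_nonneg _) (hrem j) (by linarith)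
      _ = (∑ j, (∑ i, δ j i ^ 2) ^ (p / 2)) * (1 / 4) ^ (p / 2) := by
          rw [Finset.sum_mul]
          refine Finset.sum_congr rfl fun j _ => ?_
          rw [div_eq_mul_one_div (∑ i, δ j i ^ 2) 4,
            Real.mul_rpow (Finset.sum_nonneg fun _ _ => sq_nonneg _) (by norm_num)]
      _ ≤ V ^ p * (1 / 4) ^ (p / 2) := by gcongr
  · intro s hs ω
    by_cases hω : ω ∈ A
    · simp [hω]
    · simp only [hω, if_false, hL]
      have : ∑ j, s j * ∑ l, sgn (ω l) * δ j l = ∑ l, sgn (ω l) * ∑ j, s j * δ j l := by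
        simp_rw [Finset.mul_sum]
        rw [Finset.sum_comm]
        exact Finset.sum_congr rfl fun l _ => Finset.sum_congr rfl fun j _ => by ring
      rw [this]
      simp [hs]

/-- Part LIFT. -/
theorem lift (p : ℝ) (hp : 2 ≤ p) : ∃ C : ℝ, 0 ≤ C ∧ ∀ (ι : Type) [Fintype ι] [DecidableEq ι]
    (n : ℕ) (δ : Fin n → ι → ℝ) (V : ℝ), 0 ≤ V →
    ∑ j, (∑ i, δ j i ^ 2) ^ (p / 2) ≤ V ^ p →
    ∃ a : Fin n → (ι → Bool) → ℝ,
      (∀ ω, ∑ j, |a j ω| ^ p ≤ (C * V) ^ p) ∧
      (∀ j i, av (a j) i = δ j i) ∧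
      (∀ s : Fin n → ℝ, (∀ i, ∑ j, s j * δ j i = 0) → ∀ ω, ∑ j, s j * a j ω = 0) := by
  classical
  have hp0 : 0 < p := by linarith
  refine ⟨256 * p, by positivity, ?_⟩
  intro ι _ _ n δ V hV hδ
  -- choose the steps
  have hstep : ∀ (d : Fin n → ι → ℝ) (W : ℝ), ∃ a : Fin n → (ι → Bool) → ℝ, 0 ≤ W →
      ∑ j, (∑ i, d j i ^ 2) ^ (p / 2) ≤ W ^ p →
      (∀ ω, ∑ j, |a j ω| ^ p ≤ (128 * p * W) ^ p) ∧
      (∑ j, (∑ i, (d j i - av (a j) i) ^ 2) ^ (p / 2) ≤ (W / 2) ^ p) ∧
      (∀ s : Fin n → ℝ, (∀ i, ∑ j, s j * d j i = 0) → ∀ ω, ∑ j, s j * a j ω = 0) := by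
    intro d W
    by_cases h : 0 ≤ W ∧ ∑ j, (∑ i, d j i ^ 2) ^ (p / 2) ≤ W ^ p
    · obtain ⟨a, h1, h2, h3⟩ := step p hp d W h.1 h.2
      exact ⟨a, fun _ _ => ⟨h1, h2, h3⟩⟩
    · exact ⟨0, fun h1 h2 => absurd ⟨h1, h2⟩ h⟩
  choose f hf using hstep
  let D : ℕ → (Fin n → ι → ℝ) := fun k =>
    Nat.rec δ (fun k d => fun j i => d j i - av (f d (V / 2 ^ k) j) i) k
  have hD0 : D 0 = δ := rfl
  have hD : ∀ k j i, D (k + 1) j i = D k j i - av (f (D k) (V / 2 ^ k) j) i := fun k j i => rfl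
  set a : ℕ → Fin n → (ι → Bool) → ℝ := fun k => f (D k) (V / 2 ^ k) with ha
  have hVk : ∀ k : ℕ, 0 ≤ V / 2 ^ k := fun k => by positivity
  have hinv : ∀ k, ∑ j, (∑ i, D k j i ^ 2) ^ (p / 2) ≤ (V / 2 ^ k) ^ p := by
    intro k
    induction k with
    | zero => simpa [hD0] using hδ
    | succ k ih =>
      have h2 := (hf (D k) (V / 2 ^ k) (hVk k) ih).2.1
      have e : V / 2 ^ (k + 1) = V / 2 ^ k / 2 := by rw [pow_succ]; field_simp
      rw [e]
      exact h2
  have hbd : ∀ k ω, ∑ j, |a k j ω| ^ p ≤ (128 * p * (V / 2 ^ k)) ^ p := fun k =>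
    (hf (D k) (V / 2 ^ k) (hVk k) (hinv k)).1
  have hav : ∀ k j i, av (a k j) i = D k j i - D (k + 1) j i := by
    intro k j i; rw [hD k j i]; ring
  have hbd1 : ∀ k j ω, |a k j ω| ≤ 128 * p * V * (1 / 2) ^ k := by
    intro k j ω
    have h1 : |a k j ω| ^ p ≤ (128 * p * (V / 2 ^ k)) ^ p :=
      le_trans (Finset.single_le_sum (f := fun j => |a k j ω| ^ p)
        (fun _ _ => by positivity) (Finset.mem_univ j)) (hbd k ω)
    have h2 := (Real.rpow_le_rpow_iff (abs_nonneg _) (by have := hVk k; positivity) hp0).1 h1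
    calc |a k j ω| ≤ 128 * p * (V / 2 ^ k) := h2
      _ = _ := by rw [one_div, inv_pow]; ring
  have hsum : ∀ j ω, Summable fun k => a k j ω := by
    intro j ω
    refine Summable.of_norm_bounded (g := fun k => 128 * p * V * (1 / 2) ^ k) ?_ fun k => ?_
    · exact (summable_geometric_of_lt_one (by norm_num) (by norm_num)).mul_left _
    · rw [Real.norm_eq_abs]; exact hbd1 k j ω
  have hDz : ∀ j i, Tendsto (fun k => D k j i) atTop (𝓝 0) := by
    intro j i
    have hb : ∀ k, |D k j i| ≤ V * (1 / 2) ^ k := by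
      intro k
      have h0 : 0 ≤ ∑ i, D k j i ^ 2 := Finset.sum_nonneg fun _ _ => sq_nonneg _
      have h1 : (∑ i, D k j i ^ 2) ^ (p / 2) ≤ (V / 2 ^ k) ^ p :=
        le_trans (Finset.single_le_sum (f := fun j => (∑ i, D k j i ^ 2) ^ (p / 2))
          (fun _ _ => Real.rpow_nonneg (Finset.sum_nonneg fun _ _ => sq_nonneg _) _)
          (Finset.mem_univ j)) (hinv k)
      have h2 : (V / 2 ^ k) ^ p = ((V / 2 ^ k) ^ 2) ^ (p / 2) := by
        rw [← Real.rpow_natCast (V / 2 ^ k) 2, ← Real.rpow_mul (hVk k)]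
        congr 1; push_cast; ring
      rw [h2] at h1
      have h3 := (Real.rpow_le_rpow_iff h0 (by positivity) (by linarith : 0 < p / 2)).1 h1
      have h4 : D k j i ^ 2 ≤ (V / 2 ^ k) ^ 2 :=
        le_trans (Finset.single_le_sum (f := fun i => D k j i ^ 2) (fun _ _ => sq_nonneg _)
          (Finset.mem_univ i)) h3
      calc |D k j i| ≤ V / 2 ^ k := abs_le_of_sq_le_sq h4 (hVk k)
        _ = _ := by rw [one_div, inv_pow]; ring
    refine squeeze_zero_norm (a := fun k => V * (1 / 2) ^ k) hb ?_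
    have := (tendsto_pow_atTop_nhds_zero_of_lt_one (r := (1 / 2 : ℝ)) (by norm_num)
      (by norm_num)).const_mul V
    simpa using this
  refine ⟨fun j ω => ∑' k, a k j ω, ?_, ?_, ?_⟩
  · intro ω
    -- Minkowski for the partial sums
    have hmink : ∀ K : ℕ, (∑ j, |∑ k ∈ Finset.range K, a k j ω| ^ p) ^ (1 / p) ≤
        256 * p * V * (1 - (1 / 2) ^ K) := by
      intro K
      induction K with
      | zero =>
        simp only [Finset.range_zero, Finset.sum_empty, abs_zero]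
        rw [Real.zero_rpow hp0.ne']
        simp only [Finset.sum_const_zero]
        rw [Real.zero_rpow (by positivity)]
        simp
      | succ K ih =>
        have h1 := Real.Lp_add_le Finset.univ (fun j => ∑ k ∈ Finset.range K, a k j ω)
          (fun j => a K j ω) (p := p) (by linarith)
        have h2 : (∑ j, |a K j ω| ^ p) ^ (1 / p) ≤ 128 * p * (V / 2 ^ K) := by
          calc (∑ j, |a K j ω| ^ p) ^ (1 / p) ≤ ((128 * p * (V / 2 ^ K)) ^ p) ^ (1 / p) :=
                Real.rpow_le_rpow (Finset.sum_nonneg fun _ _ => by positivity) (hbd K ω)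
                  (by positivity)
            _ = _ := by
                rw [← Real.rpow_mul (by have := hVk K; positivity), mul_one_div_cancel hp0.ne',
                  Real.rpow_one]
        simp_rw [Finset.sum_range_succ]
        calc _ ≤ _ := h1
          _ ≤ 256 * p * V * (1 - (1 / 2) ^ K) + 128 * p * (V / 2 ^ K) := add_le_add ih h2
          _ = _ := by rw [pow_succ, one_div, inv_pow]; field_simp; ring
    have hlim : Tendsto (fun K : ℕ => ∑ j, |∑ k ∈ Finset.range K, a k j ω| ^ p) atTop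
        (𝓝 (∑ j, |∑' k, a k j ω| ^ p)) := by
      refine tendsto_finsetSum _ fun j _ => ?_
      exact ((hsum j ω).hasSum.tendsto_sum_nat.abs).rpow_const (Or.inr hp0.le)
    refine le_of_tendsto' hlim fun K => ?_
    have h3 : (∑ j, |∑ k ∈ Finset.range K, a k j ω| ^ p) ^ (1 / p) ≤ 256 * p * V := by
      refine le_trans (hmink K) ?_
      have h5 : (0 : ℝ) ≤ 256 * p * V * (1 / 2) ^ K := by positivity
      nlinarith
    have h0 : 0 ≤ ∑ j, |∑ k ∈ Finset.range K, a k j ω| ^ p :=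
      Finset.sum_nonneg fun _ _ => by positivity
    calc ∑ j, |∑ k ∈ Finset.range K, a k j ω| ^ p
        = ((∑ j, |∑ k ∈ Finset.range K, a k j ω| ^ p) ^ (1 / p)) ^ p := by
          rw [← Real.rpow_mul h0, one_div_mul_cancel hp0.ne', Real.rpow_one]
      _ ≤ (256 * p * V) ^ p := Real.rpow_le_rpow (by positivity) h3 hp0.le
  · intro j i
    have h1 : HasSum (fun k => av (a k j) i) (av (fun ω => ∑' k, a k j ω) i) := by
      unfold av
      refine HasSum.div_const ?_ _
      refine hasSum_sum fun ω _ => ?_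
      exact (hsum j ω).hasSum.mul_left _
    have h2 : Tendsto (fun K => ∑ k ∈ Finset.range K, av (a k j) i) atTop (𝓝 (δ j i)) := by
      have e : ∀ K, ∑ k ∈ Finset.range K, av (a k j) i = δ j i - D K j i := by
        intro K
        induction K with
        | zero => simp [hD0]
        | succ K ih => rw [Finset.sum_range_succ, ih, hav]; ring
      simp_rw [e]
      simpa using (tendsto_const_nhds (x := δ j i)).sub (hDz j i)
    exact tendsto_nhds_unique h1.tendsto_sum_nat h2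
  · intro s hs ω
    have hrel : ∀ k, (∀ i, ∑ j, s j * D k j i = 0) ∧ ∀ ω, ∑ j, s j * a k j ω = 0 := by
      intro k
      have aux : (∀ i, ∑ j, s j * D k j i = 0) → ∀ ω, ∑ j, s j * a k j ω = 0 :=
        (hf (D k) (V / 2 ^ k) (hVk k) (hinv k)).2.2 s
      induction k with
      | zero => exact ⟨hs, aux hs⟩
      | succ k ih =>
        have aux' : (∀ i, ∑ j, s j * D k j i = 0) → ∀ ω, ∑ j, s j * a k j ω = 0 :=
          (hf (D k) (V / 2 ^ k) (hVk k) (hinv k)).2.2 s
        have ih' := ih aux'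
        have h1 : ∀ i, ∑ j, s j * D (k + 1) j i = 0 := by
          intro i
          have e : ∀ j, s j * D (k + 1) j i = s j * D k j i - s j * av (a k j) i := by
            intro j; rw [hD k j i]; ring
          simp_rw [e]
          rw [Finset.sum_sub_distrib, ih'.1 i, ← av_lin]
          have : (fun ω => ∑ j, s j * a k j ω) = fun _ => 0 := funext ih'.2
          rw [this]
          simp [av]
        exact ⟨h1, aux h1⟩
    have h1 : HasSum (fun k => ∑ j, s j * a k j ω) (∑ j, s j * ∑' k, a k j ω) :=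
      hasSum_sum fun j _ => (hsum j ω).hasSum.mul_left _
    have h2 : (fun k => ∑ j, s j * a k j ω) = fun _ => 0 := funext fun k => (hrel k).2 ω
    rw [h2] at h1
    exact h1.unique hasSum_zero

end Pool.Agent.Helper78.BAP
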